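import Pool.Agent.Helper60.OI.Final

/-!
Lower bounds for two-way NISZK protocols for the inner product modulo 2.
-/

set_option autoImplicit false

namespace Pool.Agent.Results.MP_261b61_lc.NiszkTwoWay

open Pool.Agent.Helper79.NZ Pool.Agent.Helper60.OI

theorem result :
    (∀ (n k : ℕ) (N : Prot (Fin n → Bool) (Fin n → Bool) k) (L : ℝ), N.Solves (1 / 3) (ip n) →
      1 ≤ L → Leak N.pr (fun x y => !ip n x y) L →
      (n : ℝ) ≤ 500000000 * k * Real.log (k + 3) * min (√L) (2 ^ ((N.P.depth : ℝ) / 4))) ∧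
    (∀ δ : ℝ, 0 < δ → δ ≤ 2 → ∃ n₀ : ℕ, ∀ n ≥ n₀, ∀ (k : ℕ)
      (N : Prot (Fin n → Bool) (Fin n → Bool) k), N.Solves (1 / 3) (ip n) →
      (4 - δ) * Real.logb 2 n ≤ k ∧
      ((k : ℝ) < (n : ℝ) ^ (δ / 16) →
        (2 - δ) * Real.logb 2 n ≤ aBits N.P ∧ (4 - δ) * Real.logb 2 n ≤ N.P.depth ∧
          ¬ Leak N.pr (fun x y => !ip n x y) ((n : ℝ) ^ (2 - δ)))) :=
  ⟨fun _ _ N _ hN hL h => niszk_ineq N hN hL h, fun _ h0 h2 => niszk_asym h0 h2⟩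

end Pool.Agent.Results.MP_261b61_lc.NiszkTwoWay
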