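import Pool.Agent.Helper60.OI.Final

/-!
Lower bounds for `OIP_+^{[2]}` protocols for the inner product modulo 2.
-/

set_option autoImplicit false

namespace Pool.Agent.Results.MP_261b61_lc.OipTradeoff

open Pool.Agent.Helper79.NZ Pool.Agent.Helper60.OI

theorem result :
    (∀ (n a b c : ℕ) (N : Oip (Fin n → Bool) (Fin n → Bool) c b a)
      (f : (Fin n → Bool) → (Fin n → Bool) → Bool) (L : ℝ),
      (f = ip n ∨ f = fun x y => !ip n x y) → N.Solves f → 1 ≤ L → Leak N.pq f L →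
      (n : ℝ) ≤ 80000000 * (b + c + 1) * (a + 1) * Real.log (a + b + 2) *
        min (√L) (2 ^ ((c : ℝ) / 4))) ∧
    (∀ δ : ℝ, 0 < δ → δ ≤ 2 → ∃ n₀ : ℕ, ∀ n ≥ n₀, ∀ (a b c : ℕ)
      (N : Oip (Fin n → Bool) (Fin n → Bool) c b a)
      (f : (Fin n → Bool) → (Fin n → Bool) → Bool),
      (f = ip n ∨ f = fun x y => !ip n x y) → N.Solves f →
      (6 - δ) * Real.logb 2 n ≤ (a + b + c : ℕ) ∧
      (((a + b + c : ℕ) : ℝ) < (n : ℝ) ^ (δ / 16) →
        (2 - δ) * Real.logb 2 n ≤ b ∧ (4 - δ) * Real.logb 2 n ≤ c ∧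
          ¬ Leak N.pq f ((n : ℝ) ^ (2 - δ)))) :=
  ⟨fun _ _ _ _ N _ _ hf hN hL h => oip_ineq N hf hN hL h, fun _ h0 h2 => oip_asym h0 h2⟩

end Pool.Agent.Results.MP_261b61_lc.OipTradeoff
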