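import Pool.Agent.Helper78.NX.Main

/-!
One-way NISZK protocols of cost `exp ((log n) ^ ε)` for the index function, and for every function
for which Bob has `n` inputs.
-/

set_option autoImplicit false

namespace Pool.Agent.Results.MP_261b61_lc.OneWayIndex

open Pool.Agent.Helper78.NX

theorem result : ∀ ε : ℝ, 0 < ε → ∀ δ : ℝ, 0 < δ → ∃ C : ℝ, ∀ (X Y : Type) [Fintype Y],
    2 ≤ Fintype.card Y → ∀ f : X → Y → Bool, ∃ k : ℕ,
      (k : ℝ) ≤ C * Real.exp (Real.log (Fintype.card Y) ^ ε) ∧
      ∃ N : OneWay X Y k, N.Solves δ f := by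
  intro ε hε δ hδ
  obtain ⟨C, hC⟩ := index ε hε δ hδ
  refine ⟨C, fun X Y _ hY f => ?_⟩
  obtain ⟨k, hk, N, hN⟩ := hC (Fintype.card Y) hY
  let e := Fintype.equivFin Y
  refine ⟨k, hk,
    { msg := fun x m => N.msg (fun i => f x (e.symm i)) m
      out := fun y m z => N.out (e y) m z
      msg_nonneg := fun x m => N.msg_nonneg _ m
      msg_sum := fun x => N.msg_sum _
      out_nonneg := fun y m z => N.out_nonneg _ m z
      out_sum := fun y m => N.out_sum _ m }, fun x y => ?_⟩
  have h := hN (fun i => f x (e.symm i)) (e y)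
  simp only [Equiv.symm_apply_apply] at h
  exact h

end Pool.Agent.Results.MP_261b61_lc.OneWayIndex
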