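import Pool.Agent.Helper79.NZ.Main

/-!
NISZK protocols for the inner product: cost versus smoothness of the output distribution on
1-inputs, and the superlogarithmic lower bound for negligible completeness error.
-/

set_option autoImplicit false

namespace Pool.Agent.Results.MP_261b61_lc.SmoothProtocols

open Pool.Agent.Helper79.NZ

theorem result :
    (∀ (n k : ℕ) (N : Prot (Fin n → Bool) (Fin n → Bool) k) (M : ℝ), N.Solves (1 / 3) (ip n) →
      1 ≤ M → (∀ x y z, ip n x y = true → N.pr x y z ≤ M / 2 ^ k) →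
      (n : ℝ) ≤ 48 * k * √M) ∧
    (∀ (n k : ℕ) (N : Prot (Fin n → Bool) (Fin n → Bool) k) (ε : ℝ), 0 ≤ ε → ε ≤ 1 / 3 →
      N.Solves ε (ip n) → (n : ℝ) ≤ 48 * k * √(1 + ε * 2 ^ k)) ∧
    (∀ (k : ℕ → ℕ) (ε : ℕ → ℝ) (N : ∀ n, Prot (Fin n → Bool) (Fin n → Bool) (k n)),
      (∀ n, 0 ≤ ε n) → (∀ n, ε n ≤ 1 / 3) → (∀ n, (N n).Solves (ε n) (ip n)) →
      (∀ c : ℕ, ∀ᶠ n : ℕ in Filter.atTop, ε n ≤ 1 / (n : ℝ) ^ c) →
      Filter.Tendsto (fun n => (k n : ℝ) / Real.log n) Filter.atTop Filter.atTop) :=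
  ⟨fun _ _ N _ hN hM1 hM => smooth N hN hM1 hM, fun _ _ N _ h0 h1 hN => complete N h0 h1 hN,
    superlog⟩

end Pool.Agent.Results.MP_261b61_lc.SmoothProtocols
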